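import Pool.Agent.Y202.U.Stm

set_option autoImplicit false

/-!
# Job 1203 (project Y202-U): bounds for the pair kernel of coalescing walks, `S_W2 → S_WB`
-/

namespace Pool.Agent.Y447.U

open Finset Pool.Agent.W788.NV Pool.Agent.Y202.U

/-! ## abstract setting -/

/-- the data: weights `d`, rates `m`, kernel `W` -/
structure Dat {V : Type} [Fintype V] [DecidableEq V] (d : V → ℝ) (m : V → V → ℝ) (θ Δ : ℝ)
    (W : ℝ → V → V → ℝ) : Prop where
  d1 : ∀ a, 1 ≤ d a
  dD : ∀ a, d a ≤ Δ
  D1 : 1 ≤ Δ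
  t0 : 0 < θ
  t1 : θ ≤ 1
  m0 : ∀ a b, 0 ≤ m a b
  m2 : ∀ a, ∑ b, m a b = 1 - θ
  m3 : ∀ a b, d a * m a b = d b * m b a
  W0 : ∀ t a b, 0 ≤ t → 0 ≤ W t a b
  Wd : ∀ t a, W t a a = 0
  Wi : ∀ a b, a ≠ b → W 0 a b = m a b + m b a
  Wh : ∀ t a b, a ≠ b → HasDerivAt (fun t => W t a b)
      (-2 * W t a b + ∑ a', m a a' * W t a' b + ∑ b', m b b' * W t a b') t

variable {V : Type} [Fintype V] [DecidableEq V] {d : V → ℝ} {m : V → V → ℝ} {θ Δ : ℝ}
  {W : ℝ → V → V → ℝ}

theorem anti {f f' : ℝ → ℝ} (h : ∀ t, HasDerivAt f (f' t) t) (hn : ∀ t, 0 ≤ t → f' t ≤ 0)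
    {s t : ℝ} (hs : 0 ≤ s) (hst : s ≤ t) : f t ≤ f s := by
  have h1 : AntitoneOn f (Set.Ici 0) := by
    apply antitoneOn_of_deriv_nonpos (convex_Ici 0)
    · exact fun x _ => (h x).continuousAt.continuousWithinAt
    · exact fun x _ => (h x).differentiableAt.differentiableWithinAt
    · intro x hx
      rw [interior_Ici] at hx
      rw [(h x).deriv]
      exact hn x (le_of_lt hx)
  exact h1 hs (hs.trans hst) hst

/-- the right hand side -/
def DD (m : V → V → ℝ) (w : V → V → ℝ) (a b : V) : ℝ :=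
  -2 * w a b + ∑ a', m a a' * w a' b + ∑ b', m b b' * w a b'

/-- the derivative -/
def dW (m : V → V → ℝ) (W : ℝ → V → V → ℝ) (t : ℝ) (a b : V) : ℝ :=
  if a = b then 0 else DD m (W t) a b

theorem hW (h : Dat d m θ Δ W) (t : ℝ) (a b : V) :
    HasDerivAt (fun t => W t a b) (dW m W t a b) t := by
  unfold dW
  split_ifs with hab
  · subst hab
    have : (fun t => W t a a) = fun _ => (0 : ℝ) := by
      funext t
      exact h.Wd t a
    rw [this]
    exact hasDerivAt_const t 0
  · exact h.Wh t a b hab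

/-! ## item 2 -/

theorem item2 (h : Dat d m θ Δ W) (t u : ℝ) (ht : 0 ≤ t) (hu : 0 ≤ u) (a b : V) :
    Real.exp (-2 * u) * W t a b ≤ W (t + u) a b := by
  by_cases hab : a = b
  · subst hab
    rw [h.Wd, h.Wd, mul_zero]
  · have h1 : ∀ s, HasDerivAt (fun s => -(Real.exp (2 * s) * W s a b))
        (-(Real.exp (2 * s) * (∑ a', m a a' * W s a' b + ∑ b', m b b' * W s a b'))) s := by
      intro s
      have e1 : HasDerivAt (fun s : ℝ => Real.exp (2 * s)) (Real.exp (2 * s) * 2) s := by
        have := ((hasDerivAt_id s).const_mul 2).exp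
        simpa using this
      have e2 := (e1.mul (h.Wh s a b hab)).neg
      refine e2.congr_deriv ?_
      ring
    have h2 : ∀ s, 0 ≤ s →
        -(Real.exp (2 * s) * (∑ a', m a a' * W s a' b + ∑ b', m b b' * W s a b')) ≤ 0 := by
      intro s hs
      rw [neg_nonpos]
      apply mul_nonneg (Real.exp_pos _).le
      apply add_nonneg
      · exact sum_nonneg fun a' _ => mul_nonneg (h.m0 _ _) (h.W0 _ _ _ hs)
      · exact sum_nonneg fun a' _ => mul_nonneg (h.m0 _ _) (h.W0 _ _ _ hs)
    have h3 := anti h1 h2 ht (by linarith : t ≤ t + u)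
    have h4 : Real.exp (2 * t) * W t a b ≤ Real.exp (2 * (t + u)) * W (t + u) a b := by
      linarith
    have h5 : Real.exp (2 * (t + u)) = Real.exp (2 * t) * Real.exp (2 * u) := by
      rw [← Real.exp_add]; ring_nf
    rw [h5, mul_assoc] at h4
    have h6 := le_of_mul_le_mul_left h4 (Real.exp_pos _)
    have h7 : Real.exp (-2 * u) * Real.exp (2 * u) = 1 := by
      rw [← Real.exp_add]; ring_nf; exact Real.exp_zero
    calc Real.exp (-2 * u) * W t a b ≤ Real.exp (-2 * u) * (Real.exp (2 * u) * W (t + u) a b) :=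
          mul_le_mul_of_nonneg_left h6 (Real.exp_pos _).le
      _ = W (t + u) a b := by rw [← mul_assoc, h7, one_mul]

/-! ## quadratic forms -/

/-- the energy -/
def EE (d : V → ℝ) (w : V → V → ℝ) : ℝ := ∑ a, ∑ b, d a * d b * (w a b) ^ 2

/-- the bilinear form -/
def AA (d : V → ℝ) (m : V → V → ℝ) (w v : V → V → ℝ) : ℝ :=
  ∑ a, ∑ b, d a * d b * (∑ a', m a a' * w a' b) * v a b

theorem Q_le (h : Dat d m θ Δ W) (p : V → ℝ) :
    ∑ a, ∑ a', d a * m a a' * (p a * p a') ≤ (1 - θ) * ∑ a, d a * p a ^ 2 := by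
  have h1 : ∑ a, ∑ a', d a * m a a' * p a ^ 2 = (1 - θ) * ∑ a, d a * p a ^ 2 := by
    rw [mul_sum]
    apply sum_congr rfl
    intro a _
    rw [← h.m2 a, sum_mul]
    apply sum_congr rfl
    intro a' _
    ring
  have h2 : ∑ a, ∑ a', d a * m a a' * p a' ^ 2 = (1 - θ) * ∑ a, d a * p a ^ 2 := by
    rw [← h1, sum_comm]
    apply sum_congr rfl
    intro a _
    apply sum_congr rfl
    intro a' _
    rw [h.m3 a' a]
  have h3 : ∑ a, ∑ a', d a * m a a' * (p a * p a') ≤
      ∑ a, ∑ a', (1 / 2 * (d a * m a a' * p a ^ 2) + 1 / 2 * (d a * m a a' * p a' ^ 2)) := by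
    apply sum_le_sum
    intro a _
    apply sum_le_sum
    intro a' _
    have k1 : 0 ≤ d a * m a a' := mul_nonneg (by linarith [h.d1 a]) (h.m0 a a')
    have k2 : p a * p a' ≤ 1 / 2 * p a ^ 2 + 1 / 2 * p a' ^ 2 := by
      nlinarith [sq_nonneg (p a - p a')]
    calc d a * m a a' * (p a * p a') ≤ d a * m a a' * (1 / 2 * p a ^ 2 + 1 / 2 * p a' ^ 2) :=
          mul_le_mul_of_nonneg_left k2 k1
      _ = _ := by ring
  refine h3.trans (le_of_eq ?_)
  simp only [sum_add_distrib, ← mul_sum]
  rw [h1, h2]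
  ring

theorem AA_expand (w v : V → V → ℝ) :
    AA d m w v = ∑ b, d b * ∑ a, ∑ a', d a * m a a' * (w a' b * v a b) := by
  unfold AA
  rw [sum_comm]
  apply sum_congr rfl
  intro b _
  rw [mul_sum]
  apply sum_congr rfl
  intro a _
  rw [mul_sum, mul_sum, sum_mul]
  apply sum_congr rfl
  intro a' _
  ring

theorem AA_symm (h : Dat d m θ Δ W) (w v : V → V → ℝ) : AA d m w v = AA d m v w := by
  rw [AA_expand, AA_expand]
  apply sum_congr rfl
  intro b _
  congr 1
  rw [sum_comm]
  apply sum_congr rfl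
  intro a _
  apply sum_congr rfl
  intro a' _
  rw [h.m3 a' a]
  ring

theorem AA_le (h : Dat d m θ Δ W) (w : V → V → ℝ) : AA d m w w ≤ (1 - θ) * EE d w := by
  rw [AA_expand]
  have h1 : (1 - θ) * EE d w = ∑ b, d b * ((1 - θ) * ∑ a, d a * w a b ^ 2) := by
    unfold EE
    rw [sum_comm, mul_sum]
    apply sum_congr rfl
    intro b _
    simp only [mul_sum]
    apply sum_congr rfl
    intro a _
    ring
  rw [h1]
  apply sum_le_sum
  intro b _
  apply mul_le_mul_of_nonneg_left _ (by linarith [h.d1 b])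
  have h2 := Q_le h (fun a => w a b)
  refine le_trans (le_of_eq ?_) h2
  apply sum_congr rfl
  intro a _
  apply sum_congr rfl
  intro a' _
  ring

/-- transpose -/
def tr (w : V → V → ℝ) : V → V → ℝ := fun a b => w b a

theorem EE_tr (w : V → V → ℝ) : EE d (tr w) = EE d w := by
  unfold EE tr
  rw [sum_comm]
  apply sum_congr rfl
  intro a _
  apply sum_congr rfl
  intro b _
  ring

theorem DD_pair (w v : V → V → ℝ) :
    ∑ a, ∑ b, d a * d b * (DD m w a b * v a b) =
      -2 * (∑ a, ∑ b, d a * d b * (w a b * v a b)) + AA d m w v + AA d m (tr w) (tr v) := by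
  have h1 : AA d m (tr w) (tr v) = ∑ a, ∑ b, d a * d b * (∑ b', m b b' * w a b') * v a b := by
    unfold AA tr
    rw [sum_comm]
    apply sum_congr rfl
    intro a _
    apply sum_congr rfl
    intro b _
    ring
  rw [h1]
  unfold AA DD
  rw [mul_sum, ← sum_add_distrib, ← sum_add_distrib]
  apply sum_congr rfl
  intro a _
  rw [mul_sum, ← sum_add_distrib, ← sum_add_distrib]
  apply sum_congr rfl
  intro b _
  ring

theorem dW_mul (v : V → V → ℝ) (hv : ∀ a, v a a = 0) (t : ℝ) (a b : V) :
    dW m W t a b * v a b = DD m (W t) a b * v a b := by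
  unfold dW
  split_ifs with hab
  · subst hab
    rw [hv, mul_zero, mul_zero]
  · rfl

theorem hsum2 (f f' : V → V → ℝ → ℝ) (t : ℝ) (h : ∀ a b, HasDerivAt (f a b) (f' a b t) t) :
    HasDerivAt (fun t => ∑ a, ∑ b, f a b t) (∑ a, ∑ b, f' a b t) t := by
  apply HasDerivAt.fun_sum
  intro a _
  apply HasDerivAt.fun_sum
  intro b _
  exact h a b

/-! ## item 3 -/

theorem item3 (h : Dat d m θ Δ W) (t u : ℝ) (ht : 0 ≤ t) (hu : 0 ≤ u) :
    EE d (W (t + u)) ≤ Real.exp (-4 * θ * u) * EE d (W t) := by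
  have h1 : ∀ s, HasDerivAt (fun s => EE d (W s))
      (∑ a, ∑ b, d a * d b * (2 * (dW m W s a b * W s a b))) s := by
    intro s
    apply hsum2 (fun a b s => d a * d b * (W s a b) ^ 2)
      (fun a b s => d a * d b * (2 * (dW m W s a b * W s a b)))
    intro a b
    have := ((hW h s a b).pow 2).const_mul (d a * d b)
    refine this.congr_deriv ?_
    push_cast
    ring
  have h2 : ∀ s, ∑ a, ∑ b, d a * d b * (2 * (dW m W s a b * W s a b)) =
      2 * (-2 * EE d (W s) + AA d m (W s) (W s) + AA d m (tr (W s)) (tr (W s))) := by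
    intro s
    have k := DD_pair (d := d) (m := m) (W s) (W s)
    have k2 : ∑ a, ∑ b, d a * d b * (W s a b * W s a b) = EE d (W s) := by
      unfold EE
      apply sum_congr rfl
      intro a _
      apply sum_congr rfl
      intro b _
      ring
    rw [k2] at k
    rw [← k, mul_sum]
    apply sum_congr rfl
    intro a _
    rw [mul_sum]
    apply sum_congr rfl
    intro b _
    rw [dW_mul (W s) (h.Wd s)]
    ring
  have h3 : ∀ s, HasDerivAt (fun s => Real.exp (4 * θ * s) * EE d (W s))
      (Real.exp (4 * θ * s) * (4 * θ * EE d (W s) +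
        2 * (-2 * EE d (W s) + AA d m (W s) (W s) + AA d m (tr (W s)) (tr (W s))))) s := by
    intro s
    have e1 : HasDerivAt (fun s : ℝ => Real.exp (4 * θ * s)) (Real.exp (4 * θ * s) * (4 * θ)) s := by
      have := ((hasDerivAt_id s).const_mul (4 * θ)).exp
      simpa using this
    have e2 := e1.mul (h1 s)
    refine e2.congr_deriv ?_
    rw [h2 s]
    ring
  have h4 : ∀ s, 0 ≤ s → Real.exp (4 * θ * s) * (4 * θ * EE d (W s) +
        2 * (-2 * EE d (W s) + AA d m (W s) (W s) + AA d m (tr (W s)) (tr (W s)))) ≤ 0 := by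
    intro s _
    apply mul_nonpos_of_nonneg_of_nonpos (Real.exp_pos _).le
    have a1 := AA_le h (W s)
    have a2 := AA_le h (tr (W s))
    rw [EE_tr] at a2
    linarith
  have h5 := anti h3 h4 ht (by linarith : t ≤ t + u)
  have h6 : Real.exp (4 * θ * (t + u)) = Real.exp (4 * θ * t) * Real.exp (4 * θ * u) := by
    rw [← Real.exp_add]; ring_nf
  rw [h6, mul_assoc] at h5
  have h7 := le_of_mul_le_mul_left h5 (Real.exp_pos _)
  have h8 : Real.exp (-4 * θ * u) * Real.exp (4 * θ * u) = 1 := by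
    rw [← Real.exp_add]; ring_nf; exact Real.exp_zero
  calc EE d (W (t + u)) = Real.exp (-4 * θ * u) * (Real.exp (4 * θ * u) * EE d (W (t + u))) := by
        rw [← mul_assoc, h8, one_mul]
    _ ≤ _ := mul_le_mul_of_nonneg_left h7 (Real.exp_pos _).le

/-! ## item 4 -/

theorem item4 (h : Dat d m θ Δ W) (t : ℝ) :
    ∑ a, ∑ b, d a * d b * (m a b + m b a) * W (2 * t) a b = EE d (W t) := by
  have h1 : ∀ s, HasDerivAt (fun s => ∑ a, ∑ b, d a * d b * (W s a b * W (2 * t - s) a b))
      (∑ a, ∑ b, d a * d b * (dW m W s a b * W (2 * t - s) a b -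
        dW m W (2 * t - s) a b * W s a b)) s := by
    intro s
    apply hsum2 (fun a b s => d a * d b * (W s a b * W (2 * t - s) a b))
      (fun a b s => d a * d b * (dW m W s a b * W (2 * t - s) a b -
        dW m W (2 * t - s) a b * W s a b))
    intro a b
    have e1 : HasDerivAt (fun s : ℝ => W (2 * t - s) a b) (dW m W (2 * t - s) a b * (-1)) s := by
      have e0 : HasDerivAt (fun s : ℝ => 2 * t - s) (-1) s := by
        simpa using (hasDerivAt_id s).const_sub (2 * t)
      exact (hW h (2 * t - s) a b).comp s e0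
    have e2 := ((hW h s a b).mul e1).const_mul (d a * d b)
    refine e2.congr_deriv ?_
    ring
  have h2 : ∀ s, ∑ a, ∑ b, d a * d b * (dW m W s a b * W (2 * t - s) a b -
        dW m W (2 * t - s) a b * W s a b) = 0 := by
    intro s
    have k1 := DD_pair (d := d) (m := m) (W s) (W (2 * t - s))
    have k2 := DD_pair (d := d) (m := m) (W (2 * t - s)) (W s)
    rw [AA_symm h (W (2 * t - s)) (W s), AA_symm h (tr (W (2 * t - s))) (tr (W s))] at k2
    have k3 : ∑ a, ∑ b, d a * d b * (W (2 * t - s) a b * W s a b) =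
        ∑ a, ∑ b, d a * d b * (W s a b * W (2 * t - s) a b) := by
      apply sum_congr rfl
      intro a _
      apply sum_congr rfl
      intro b _
      ring
    rw [k3] at k2
    have k4 : ∑ a, ∑ b, d a * d b * (dW m W s a b * W (2 * t - s) a b -
        dW m W (2 * t - s) a b * W s a b) =
        ∑ a, ∑ b, d a * d b * (DD m (W s) a b * W (2 * t - s) a b) -
        ∑ a, ∑ b, d a * d b * (DD m (W (2 * t - s)) a b * W s a b) := by
      rw [← sum_sub_distrib]
      apply sum_congr rfl
      intro a _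
      rw [← sum_sub_distrib]
      apply sum_congr rfl
      intro b _
      rw [dW_mul (W (2 * t - s)) (h.Wd _), dW_mul (W s) (h.Wd _)]
      ring
    rw [k4, k1, k2]
    ring
  have h3 : ∀ x y : ℝ, (fun s => ∑ a, ∑ b, d a * d b * (W s a b * W (2 * t - s) a b)) x =
      (fun s => ∑ a, ∑ b, d a * d b * (W s a b * W (2 * t - s) a b)) y := by
    apply is_const_of_deriv_eq_zero
    · exact fun s => (h1 s).differentiableAt
    · intro s
      rw [(h1 s).deriv]
      exact h2 s
  have h4 := h3 0 t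
  simp only at h4
  have h5 : ∑ a, ∑ b, d a * d b * (W t a b * W (2 * t - t) a b) = EE d (W t) := by
    unfold EE
    have : 2 * t - t = t := by ring
    rw [this]
    apply sum_congr rfl
    intro a _
    apply sum_congr rfl
    intro b _
    ring
  rw [← h5, ← h4]
  apply sum_congr rfl
  intro a _
  apply sum_congr rfl
  intro b _
  by_cases hab : a = b
  · subst hab
    rw [h.Wd, sub_zero, h.Wd]
    ring
  · rw [h.Wi a b hab, sub_zero]
    ring

/-! ## item 1 -/

theorem hpos (x : ℝ) : HasDerivAt (fun x : ℝ => (max x 0) ^ 2) (2 * max x 0) x := by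
  rcases lt_trichotomy x 0 with hx | hx | hx
  · rw [max_eq_right hx.le, mul_zero]
    have h0 : HasDerivAt (fun _ : ℝ => (0 : ℝ)) 0 x := hasDerivAt_const x 0
    apply h0.congr_of_eventuallyEq
    filter_upwards [eventually_lt_nhds hx] with y hy
    rw [max_eq_right hy.le]
    norm_num
  · subst hx
    rw [max_self, mul_zero, hasDerivAt_iff_isLittleO_nhds_zero]
    simp only [zero_add, max_self, smul_zero, sub_zero]
    have h1 : (fun h : ℝ => (max h 0) ^ 2 - 0 ^ 2) =O[nhds 0] fun h : ℝ => h ^ 2 := by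
      apply Asymptotics.IsBigO.of_bound 1
      filter_upwards with y
      rw [one_mul]
      rcases le_total y 0 with h | h
      · rw [max_eq_right h]
        simp only [ne_eq, OfNat.ofNat_ne_zero, not_false_eq_true, zero_pow, sub_self, norm_zero]
        exact norm_nonneg _
      · rw [max_eq_left h]
        simp
    refine h1.trans_isLittleO ?_
    exact Asymptotics.isLittleO_pow_id (by norm_num)
  · rw [max_eq_left hx.le]
    have h0 : HasDerivAt (fun y : ℝ => y ^ 2) (2 * x) x := by
      simpa using hasDerivAt_pow 2 x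
    apply h0.congr_of_eventuallyEq
    filter_upwards [eventually_gt_nhds hx] with y hy
    rw [max_eq_left hy.le]

/-- row sums -/
def rr (d : V → ℝ) (w : V → V → ℝ) (a : V) : ℝ := ∑ b, d b * w a b

theorem drr_le (h : Dat d m θ Δ W) (t : ℝ) (ht : 0 ≤ t) (a : V) :
    ∑ b, d b * dW m W t a b ≤ -(1 + θ) * rr d (W t) a + ∑ a', m a a' * rr d (W t) a' := by
  have h1 : ∑ b, d b * dW m W t a b ≤ ∑ b, d b * DD m (W t) a b := by
    apply sum_le_sum
    intro b _
    apply mul_le_mul_of_nonneg_left _ (by linarith [h.d1 b])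
    unfold dW
    split_ifs with hab
    · subst hab
      unfold DD
      rw [h.Wd]
      have k1 : 0 ≤ ∑ a', m a a' * W t a' a :=
        sum_nonneg fun a' _ => mul_nonneg (h.m0 _ _) (h.W0 _ _ _ ht)
      have k2 : 0 ≤ ∑ a', m a a' * W t a a' :=
        sum_nonneg fun a' _ => mul_nonneg (h.m0 _ _) (h.W0 _ _ _ ht)
      linarith
    · exact le_rfl
  refine h1.trans (le_of_eq ?_)
  have h2 : ∑ b, d b * DD m (W t) a b = -2 * rr d (W t) a + ∑ b, d b * ∑ a', m a a' * W t a' b +
      ∑ b, d b * ∑ b', m b b' * W t a b' := by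
    unfold DD rr
    rw [mul_sum, ← sum_add_distrib, ← sum_add_distrib]
    apply sum_congr rfl
    intro b _
    ring
  have h3 : ∑ b, d b * ∑ a', m a a' * W t a' b = ∑ a', m a a' * rr d (W t) a' := by
    unfold rr
    simp only [mul_sum]
    rw [sum_comm]
    apply sum_congr rfl
    intro a' _
    apply sum_congr rfl
    intro b _
    ring
  have h4 : ∑ b, d b * ∑ b', m b b' * W t a b' = (1 - θ) * rr d (W t) a := by
    unfold rr
    simp only [mul_sum]
    rw [sum_comm]
    apply sum_congr rfl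
    intro b' _
    rw [← h.m2 b', sum_mul]
    apply sum_congr rfl
    intro b _
    have := h.m3 b b'
    calc d b * (m b b' * W t a b') = (d b * m b b') * W t a b' := by ring
      _ = (d b' * m b' b) * W t a b' := by rw [this]
      _ = _ := by ring
  rw [h2, h3, h4]
  ring

theorem rr0 (h : Dat d m θ Δ W) (a : V) : rr d (W 0) a ≤ 2 * Δ := by
  have h1 : rr d (W 0) a ≤ ∑ b, (d b * m a b + d b * m b a) := by
    unfold rr
    apply sum_le_sum
    intro b _
    rw [← mul_add]
    apply mul_le_mul_of_nonneg_left _ (by linarith [h.d1 b])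
    by_cases hab : a = b
    · subst hab
      rw [h.Wd]
      linarith [h.m0 a a]
    · rw [h.Wi a b hab]
  have h2 : ∑ b, (d b * m a b + d b * m b a) ≤ ∑ b, (Δ * m a b + d a * m a b) := by
    apply sum_le_sum
    intro b _
    have k1 : d b * m a b ≤ Δ * m a b := mul_le_mul_of_nonneg_right (h.dD b) (h.m0 a b)
    have k2 := h.m3 a b
    linarith
  have h3 : ∑ b, (Δ * m a b + d a * m a b) = (Δ + d a) * (1 - θ) := by
    rw [← h.m2 a, mul_sum]
    apply sum_congr rfl
    intro b _
    ring
  have h4 : (Δ + d a) * (1 - θ) ≤ 2 * Δ := by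
    have := h.dD a
    have := h.d1 a
    nlinarith [h.t0, h.t1]
  linarith

theorem item1 (h : Dat d m θ Δ W) (t : ℝ) (ht : 0 ≤ t) (a : V) :
    rr d (W t) a ≤ 2 * Δ := by
  have hM : 0 ≤ 2 * Δ := by linarith [h.D1]
  set M := 2 * Δ with hMdef
  have h1 : ∀ s, HasDerivAt (fun s => ∑ a, d a * (max (rr d (W s) a - M) 0) ^ 2)
      (∑ a, d a * (2 * max (rr d (W s) a - M) 0 * ∑ b, d b * dW m W s a b)) s := by
    intro s
    apply HasDerivAt.fun_sum
    intro a _
    apply HasDerivAt.const_mul
    have e1 : HasDerivAt (fun s => rr d (W s) a - M) (∑ b, d b * dW m W s a b) s := by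
      apply HasDerivAt.sub_const
      unfold rr
      apply HasDerivAt.fun_sum
      intro b _
      exact (hW h s a b).const_mul (d b)
    exact (hpos (rr d (W s) a - M)).comp s e1
  have h2 : ∀ s, 0 ≤ s →
      ∑ a, d a * (2 * max (rr d (W s) a - M) 0 * ∑ b, d b * dW m W s a b) ≤ 0 := by
    intro s hs
    set p : V → ℝ := fun a => max (rr d (W s) a - M) 0 with hp
    have hp0 : ∀ a, 0 ≤ p a := fun a => le_max_right _ _
    have k1 : ∀ a, p a * ∑ b, d b * dW m W s a b ≤
        -(1 + θ) * p a ^ 2 + ∑ a', m a a' * (p a * p a') := by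
      intro a
      have j1 := mul_le_mul_of_nonneg_left (drr_le h s hs a) (hp0 a)
      have j2 : p a * (rr d (W s) a - M) = p a ^ 2 := by
        rcases le_total (rr d (W s) a - M) 0 with hh | hh
        · have : p a = 0 := max_eq_right hh
          rw [this]; ring
        · have : p a = rr d (W s) a - M := max_eq_left hh
          rw [this]; ring
      have j3 : ∑ a', m a a' * rr d (W s) a' ≤ ∑ a', m a a' * p a' + (1 - θ) * M := by
        rw [← h.m2 a, sum_mul, ← sum_add_distrib]
        apply sum_le_sum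
        intro a' _
        rw [← mul_add]
        apply mul_le_mul_of_nonneg_left _ (h.m0 a a')
        have : rr d (W s) a' - M ≤ p a' := le_max_left _ _
        linarith
      have j4 := mul_le_mul_of_nonneg_left j3 (hp0 a)
      have j5 : ∑ a', m a a' * (p a * p a') = p a * ∑ a', m a a' * p a' := by
        rw [mul_sum]
        apply sum_congr rfl
        intro a' _
        ring
      have j6 : 0 ≤ θ * M * p a := mul_nonneg (mul_nonneg h.t0.le hM) (hp0 a)
      rw [j5]
      have j7 : p a * (-(1 + θ) * rr d (W s) a + ∑ a', m a a' * rr d (W s) a') =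
          -(1 + θ) * (p a * (rr d (W s) a - M)) - (1 + θ) * (M * p a) +
            p a * ∑ a', m a a' * rr d (W s) a' := by ring
      rw [j7, j2] at j1
      nlinarith
    have k2 : ∑ a, d a * (2 * p a * ∑ b, d b * dW m W s a b) ≤
        ∑ a, d a * (2 * (-(1 + θ) * p a ^ 2 + ∑ a', m a a' * (p a * p a'))) := by
      apply sum_le_sum
      intro a _
      apply mul_le_mul_of_nonneg_left _ (by linarith [h.d1 a])
      have := k1 a
      linarith
    have k3 : ∑ a, d a * (2 * (-(1 + θ) * p a ^ 2 + ∑ a', m a a' * (p a * p a'))) =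
        -2 * (1 + θ) * ∑ a, d a * p a ^ 2 + 2 * ∑ a, ∑ a', d a * m a a' * (p a * p a') := by
      rw [mul_sum, mul_sum, ← sum_add_distrib]
      apply sum_congr rfl
      intro a _
      have : ∑ a', d a * m a a' * (p a * p a') = d a * ∑ a', m a a' * (p a * p a') := by
        rw [mul_sum]
        apply sum_congr rfl
        intro a' _
        ring
      rw [this]
      ring
    have k4 := Q_le h p
    have k5 : 0 ≤ ∑ a, d a * p a ^ 2 :=
      sum_nonneg fun a _ => mul_nonneg (by linarith [h.d1 a]) (sq_nonneg _)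
    have k6 : 0 ≤ θ * ∑ a, d a * p a ^ 2 := mul_nonneg h.t0.le k5
    have k7 : ∑ a, d a * (2 * p a * ∑ b, d b * dW m W s a b) ≤ 0 := by
      refine k2.trans ?_
      rw [k3]
      nlinarith
    exact k7
  have h3 := anti h1 h2 le_rfl ht
  have h4 : ∑ a, d a * (max (rr d (W 0) a - M) 0) ^ 2 = 0 := by
    apply sum_eq_zero
    intro a _
    rw [max_eq_right (by linarith [rr0 h a])]
    ring
  rw [h4] at h3
  have h5 : d a * (max (rr d (W t) a - M) 0) ^ 2 ≤ 0 := by
    refine le_trans ?_ h3
    exact single_le_sum (f := fun a => d a * (max (rr d (W t) a - M) 0) ^ 2)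
      (fun b _ => mul_nonneg (by linarith [h.d1 b]) (sq_nonneg _)) (mem_univ a)
  by_contra hcon
  push Not at hcon
  have h6 : 0 < max (rr d (W t) a - M) 0 := lt_max_of_lt_left (by linarith)
  have h7 : 0 < d a * (max (rr d (W t) a - M) 0) ^ 2 :=
    mul_pos (by linarith [h.d1 a]) (by positivity)
  linarith

/-! ## the statement -/

theorem mr (G : SimpleGraph V) (q : ℕ) (θ : ℝ) (a b : V) [Decidable (G.Adj a b)] :
    mrate G q θ (Sum.inr (a, b)) = if G.Adj a b then (1 - θ) / (dg G a : ℝ) else 0 := by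
  unfold mrate
  simp only

theorem dat (h2 : S_W2) (G : SimpleGraph V) (q : ℕ) (θ : ℝ) (Δ : ℕ) (hS : SA G q θ Δ) :
    Dat (fun a => (dg G a : ℝ)) (fun a b => mrate G q θ (Sum.inr (a, b))) θ (Δ : ℝ)
      (fun t a b => Wp G q θ t a b) := by
  classical
  obtain ⟨w0, ws, wd, wi, wh⟩ := h2 V G q θ Δ hS
  refine ⟨?_, ?_, ?_, hS.t0, hS.t1, ?_, ?_, ?_, ?_, wd, wi, wh⟩
  · intro a
    exact_mod_cast hS.d1 a
  · intro a
    exact_mod_cast hS.dD a
  · exact_mod_cast hS.D1
  · intro a b
    rw [mr]
    split_ifs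
    · exact div_nonneg (by linarith [hS.t1]) (Nat.cast_nonneg _)
    · exact le_rfl
  · intro a
    simp only [mr]
    have hd : (0 : ℝ) < (dg G a : ℝ) := by
      exact_mod_cast hS.d1 a
    rw [← sum_filter, sum_const, nsmul_eq_mul]
    have : (dg G a : ℝ) = ((univ.filter (fun w => G.Adj a w)).card : ℝ) := by
      unfold dg
      norm_cast
    rw [← this]
    field_simp
  · intro a b
    simp only [mr]
    have hda : (dg G a : ℝ) ≠ 0 := by
      have := hS.d1 a
      positivity
    have hdb : (dg G b : ℝ) ≠ 0 := by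
      have := hS.d1 b
      positivity
    by_cases hab : G.Adj a b
    · rw [if_pos hab, if_pos hab.symm]
      field_simp
    · rw [if_neg hab, if_neg (fun h => hab h.symm)]
      ring
  · intro t a b ht
    exact w0 t {a, b} ht

/-- **Job 1203.** -/
theorem wb (h : S_W2) : S_WB := by
  intro V _ _ G q θ Δ hS t u ht hu
  have hd := dat h G q θ Δ hS
  refine ⟨?_, ?_, ?_, ?_⟩
  · intro a
    have h1 := item1 hd t ht a
    unfold rr at h1
    refine h1.trans ?_
    have : (1 : ℝ) ≤ Δ := by exact_mod_cast hS.D1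
    nlinarith
  · exact item2 hd t u ht hu
  · exact item3 hd t u ht hu
  · exact item4 hd t

end Pool.Agent.Y447.U
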